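import Pool.Agent.helper87.FM.Fin

/-!
# Boundedly many spectra determine almost all graphs

For a set `S` of `k ≥ 176` vertices and `n ≥ 2 ^ (10 k + 201)`, all but a proportion `2 ^ (5 - k)` of the graphs on `n` vertices are determined, up to an
isomorphism respecting `S`, by the characteristic polynomials of the graph and of the graphs with one or two vertices of `S` deleted.

Proof. The characteristic polynomials determine the numbers of walks between marked vertices (Desnanot-Jacobi). If the vectors `A ^ l e_s` (`s` in `S`) generate `ℤ ^ n`
as a group, these numbers determine the graph. The probability that they do not is bounded by a study of the eigenvectors of random graphs over all finite fields: the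
large fields are handled by potential functions for the dimensions of the eigenspaces, sparse eigenvectors being excluded, and a determinant bound for the number of
bad maximal ideals of `ℤ[X]`; the small fields by a first moment.
-/

set_option autoImplicit false

namespace Pool.Agent.Results.MP_abccb5_co.BoundedSpectra

open Polynomial

open Classical in
/-- The characteristic polynomial of the adjacency matrix of the graph obtained from `G` by deleting the vertices in `R`. -/
noncomputable def chi {n : ℕ} (G : SimpleGraph (Fin n)) (R : Set (Fin n)) : ℤ[X] :=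
  ((G.induce Rᶜ).adjMatrix ℤ).charpoly

/-- The graph `G` is determined by the characteristic polynomials of `G`, `G - s` and `G - {s, s'}` for `s, s'` in `S`. -/
def DeterminedBy {n : ℕ} (S : Finset (Fin n)) (G : SimpleGraph (Fin n)) : Prop :=
  ∀ (H : SimpleGraph (Fin n)) (u : S → Fin n), chi H ∅ = chi G ∅ →
    (∀ s s' : S, chi H {u s, u s'} = chi G {(s : Fin n), (s' : Fin n)}) →
    ∃ φ : G ≃g H, ∀ s : S, φ s = u s

theorem det_iff {n : ℕ} (S : Finset (Fin n)) (G : SimpleGraph (Fin n)) :
    DeterminedBy S G ↔ Pool.Agent.FS.Det S G := by
  have hc : ∀ (G : SimpleGraph (Fin n)) (R : Set (Fin n)), chi G R = Pool.Agent.FS.chp G R := by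
    intro G R
    unfold chi Pool.Agent.FS.chp
    rfl
  unfold DeterminedBy Pool.Agent.FS.Det
  simp only [hc, eq_comm]

/-- Boundedly many spectra determine all but a proportion `2 ^ (5 - k)` of the graphs. -/
theorem result (k n : ℕ) (hk : 176 ≤ k) (hn : 2 ^ (10 * k + 201) ≤ n) (S : Finset (Fin n)) (hS : k ≤ S.card) :
    2 ^ k * Nat.card {G : SimpleGraph (Fin n) // ¬ DeterminedBy S G} ≤ 2 ^ 5 * Nat.card (SimpleGraph (Fin n)) := by
  have h1 := Pool.Agent.FM.main k n S hk hn hS
  have h2 : Nat.card {G : SimpleGraph (Fin n) // ¬ DeterminedBy S G} =
      Nat.card {G : SimpleGraph (Fin n) // ¬ Pool.Agent.FS.Det S G} := by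
    simp only [det_iff]
  rw [h2]
  exact h1.trans (Nat.mul_le_mul_left 32 (Pool.Agent.FM.card_ge n))

end Pool.Agent.Results.MP_abccb5_co.BoundedSpectra
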