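import Pool.Agent.helper62.DQ.Fin

/-!
# Cospectral mates of almost all graphs are not obtained by sparse orthogonal matrices

Two graphs with adjacency matrices `A` and `B` are cospectral exactly when `Qᵀ A Q = B` for a
real orthogonal matrix `Q`. For almost all graphs `G`, every graph `H` not isomorphic to `G`,
every such `Q` and every `k`, at most `(1 / 2 + ε) n + 20 k ^ 2 log₂ n` columns of `Q` have at
most `k` nonzero entries.
-/

set_option autoImplicit false

namespace Pool.Agent.Results.MP_abccb5_co.DenseSimilarity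

open scoped Classical Matrix
open Filter Topology

theorem result (ε : ℝ) (hε : 0 < ε) :
    Tendsto (fun n : ℕ =>
      (Nat.card {G : SimpleGraph (Fin n) //
        ∀ (H : SimpleGraph (Fin n)) (Q : Matrix (Fin n) (Fin n) ℝ), ¬ Nonempty (G ≃g H) →
          Qᵀ * Q = 1 → Qᵀ * G.adjMatrix ℝ * Q = H.adjMatrix ℝ →
          ∀ k : ℕ, ({j | {i | Q i j ≠ 0}.ncard ≤ k}.ncard : ℝ) ≤
            (1 / 2 + ε) * n + 20 * (k : ℝ) ^ 2 * Real.logb 2 n} : ℝ) /
        (Nat.card (SimpleGraph (Fin n)) : ℝ))
      atTop (𝓝 1) :=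
  DQ.tendsto_FinP hε

end Pool.Agent.Results.MP_abccb5_co.DenseSimilarity
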