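import Pool.Agent.helper62.DS.Fin

/-!
# Almost all graphs have no cospectral graph nearby

`G` ranges over the labelled graphs on `n` vertices. For almost all `G`, every other graph `H`
on the same vertices with the same characteristic polynomial is far from `G`: with `m` the
number of edges in which `G` and `H` differ, `k` the number of vertices of any vertex cover of
these edges and `s` the number of vertices they touch, `n ≤ 20 m log₂ (100 k)` and
`n ≤ 3 s ^ 2`. The proof works modulo two.
-/

set_option autoImplicit false

namespace Pool.Agent.Results.MP_abccb5_co.LocallyDetermined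

open scoped Classical
open Filter Topology

theorem result :
    Tendsto (fun n : ℕ =>
      (Nat.card {G : SimpleGraph (Fin n) //
        ∀ H : SimpleGraph (Fin n), H ≠ G →
          (H.adjMatrix ℤ).charpoly = (G.adjMatrix ℤ).charpoly →
          (∀ K : Finset (Fin n), (∀ u v, (symmDiff G H).Adj u v → u ∈ K ∨ v ∈ K) →
            (n : ℝ) ≤ 20 * ((symmDiff G H).edgeSet.ncard : ℝ) * Real.logb 2 (100 * K.card)) ∧
          n ≤ 3 * (symmDiff G H).support.ncard ^ 2} : ℝ) /
        (Nat.card (SimpleGraph (Fin n)) : ℝ))
      atTop (𝓝 1) :=
  DS.tendsto_LocDet

end Pool.Agent.Results.MP_abccb5_co.LocallyDetermined
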