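import Pool.Agent.helper42.NS.Main2

/-!
# The number of different spectra of graphs on n vertices is at least `2 ^ (c n²)`

For a quarter of the graphs `H` on `m = 2 ^ (10 a)` vertices there are `176` vertex sets whose
indicator vectors `b_i` generate `ℤ^m` together with all `H^l b_i`. The characteristic polynomials
of the graphs obtained from `H` by adding two vertices joined to `b_i` and `b_j` then determine `H`
up to isomorphism, and the disjoint union of these `177²` graphs has a characteristic polynomial
with at most `2^n` monic divisors.
-/

set_option autoImplicit false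

namespace Pool.Agent.Results.MP_abccb5_co.ManySpectra

theorem result : ∃ c : ℝ, 0 < c ∧ ∃ n₀ : ℕ, ∀ n : ℕ, n₀ ≤ n →
    (2 : ℝ) ^ (c * (n : ℝ) ^ 2) ≤
      (Set.ncard {p : Polynomial ℤ | ∃ (G : SimpleGraph (Fin n)) (_ : DecidableRel G.Adj),
        p = (G.adjMatrix ℤ).charpoly} : ℝ) :=
  Pool.Agent.helper42.NS.main_strong

end Pool.Agent.Results.MP_abccb5_co.ManySpectra
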